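import Pool.Agent.Helper99.MKV.GoalsA

open Finset Pool.Agent.Helper99.MKV Pool.Agent.Helper99.EXC Pool.Agent.Helper99.ERW

namespace Pool.Agent.Helper42.MKV

lemma nm0 (x : Site 2) : 0 ≤ nm x := le_trans (abs_nonneg _) (le_max_left _ _)

lemma nmS (x y : Site 2) : nm (x - y) = nm (y - x) := by
  unfold nm
  simp only [Pi.sub_apply, Int.cast_sub]
  rw [abs_sub_comm ((x 0 : ℤ) : ℝ), abs_sub_comm ((x 1 : ℤ) : ℝ)]

lemma split (A B : Finset (Site 2)) (F : Site 2 → ℝ) (hF : ∀ x, 0 ≤ F x) :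
    ∑ x ∈ A, F x ≤ ∑ x ∈ B, F x + ∑ x ∈ A \ B, F x := by
  classical
  rw [← Finset.sum_union Finset.disjoint_sdiff]
  apply Finset.sum_le_sum_of_subset_of_nonneg
  · intro x hx
    by_cases h : x ∈ B
    · exact Finset.mem_union_left _ h
    · exact Finset.mem_union_right _ (Finset.mem_sdiff.2 ⟨hx, h⟩)
  · intro x _ _
    exact hF x

lemma boxmono (b k : ℕ) : Bx b k ⊆ Bx b (k + 1) := by
  intro x hx
  unfold Bx at *
  rw [mem_box] at *
  intro i
  have h1 : (b * 2 ^ k : ℕ) ≤ b * 2 ^ (k + 1) :=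
    Nat.mul_le_mul_left _ (Nat.pow_le_pow_right (by norm_num) (Nat.le_succ k))
  have h2 : ((b * 2 ^ k : ℕ) : ℤ) ≤ ((b * 2 ^ (k + 1) : ℕ) : ℤ) := by exact_mod_cast h1
  exact (hx i).trans h2

/-- Sum of absolute values of a convolution by the form bound. -/
lemma formabs (h : Site 2 → ℝ) (C : ℝ) (hC : 0 ≤ C)
    (form : ∀ (B : Finset (Site 2)) (f g : Site 2 → ℝ),
      |∑ z ∈ B, ∑ y ∈ B, f z * h (y - z) * g y| ≤
        C * Real.sqrt (∑ z ∈ B, f z ^ 2) * Real.sqrt (∑ y ∈ B, g y ^ 2))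
    (A B : Finset (Site 2)) (hAB : A ⊆ B) (w : Site 2 → ℝ) (hw : ∀ x, x ∉ A → w x = 0)
    (M N : ℝ) (hM : 0 ≤ M) (hN : (B.card : ℝ) ≤ N) (hwM : ∀ x, |w x| ≤ M) :
    ∑ y ∈ B, |∑ z ∈ A, w z * h (y - z)| ≤ C * M * N := by
  set T : Site 2 → ℝ := fun y => ∑ z ∈ A, w z * h (y - z) with hT
  have hTB : ∀ y, T y = ∑ z ∈ B, w z * h (y - z) := by
    intro y
    simp only [hT]
    apply Finset.sum_subset hAB
    intro x _ hx
    rw [hw x hx, zero_mul]
  set g : Site 2 → ℝ := fun y => if 0 ≤ T y then 1 else -1 with hg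
  have hg1 : ∀ y, |T y| = T y * g y := by
    intro y
    simp only [hg]
    split_ifs with h1
    · rw [abs_of_nonneg h1, mul_one]
    · rw [abs_of_neg (not_le.1 h1)]; ring
  have hg2 : ∀ y, g y ^ 2 = 1 := by
    intro y
    simp only [hg]
    split_ifs <;> norm_num
  have e1 : ∑ y ∈ B, |T y| = ∑ z ∈ B, ∑ y ∈ B, w z * h (y - z) * g y := by
    rw [Finset.sum_comm]
    apply Finset.sum_congr rfl
    intro y _
    rw [hg1, hTB, Finset.sum_mul]
  have hN0 : 0 ≤ N := le_trans (Nat.cast_nonneg _) hN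
  have s1 : Real.sqrt (∑ y ∈ B, g y ^ 2) ≤ Real.sqrt N := by
    apply Real.sqrt_le_sqrt
    simp only [hg2, Finset.sum_const, nsmul_eq_mul, mul_one]
    exact hN
  have s2 : Real.sqrt (∑ z ∈ B, w z ^ 2) ≤ M * Real.sqrt N := by
    have : ∑ z ∈ B, w z ^ 2 ≤ M ^ 2 * N := by
      calc ∑ z ∈ B, w z ^ 2 ≤ ∑ z ∈ B, M ^ 2 := by
            apply Finset.sum_le_sum
            intro z _
            rw [← sq_abs (w z)]
            exact pow_le_pow_left₀ (abs_nonneg _) (hwM z) 2
        _ = (B.card : ℝ) * M ^ 2 := by rw [Finset.sum_const, nsmul_eq_mul]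
        _ ≤ N * M ^ 2 := by gcongr
        _ = M ^ 2 * N := by ring
    calc Real.sqrt (∑ z ∈ B, w z ^ 2) ≤ Real.sqrt (M ^ 2 * N) := Real.sqrt_le_sqrt this
      _ = M * Real.sqrt N := by
          rw [Real.sqrt_mul (sq_nonneg M), Real.sqrt_sq hM]
  calc ∑ y ∈ B, |T y| = ∑ z ∈ B, ∑ y ∈ B, w z * h (y - z) * g y := e1
    _ ≤ |∑ z ∈ B, ∑ y ∈ B, w z * h (y - z) * g y| := le_abs_self _
    _ ≤ C * Real.sqrt (∑ z ∈ B, w z ^ 2) * Real.sqrt (∑ y ∈ B, g y ^ 2) := form B w g
    _ ≤ C * (M * Real.sqrt N) * Real.sqrt N := by gcongr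
    _ = C * M * (Real.sqrt N * Real.sqrt N) := by ring
    _ = C * M * N := by rw [Real.mul_self_sqrt hN0]

lemma kpow (k : ℕ) : (k : ℝ) + 1 ≤ 2 ^ k := by
  have : k + 1 ≤ 2 ^ k := Nat.lt_two_pow_self
  exact_mod_cast this

theorem PSA (hSMS : SMS_stmt) : PSA_stmt := by
  classical
  intro κ C b hb
  obtain ⟨D, hD, s1, s2, s3, s4, s5, s6, s7, s8⟩ := hSMS b hb
  by_cases hC : 1 ≤ C
  swap
  · exact ⟨0, le_rfl, fun a φ Φ k1 h => absurd h.cone hC⟩
  have hD0 : 0 ≤ D := by linarith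
  have hC0 : 0 ≤ C := by linarith
  have hDD : D ≤ D ^ 2 := by nlinarith
  refine ⟨9 * C * D ^ 2, by positivity, ?_⟩
  intro a φ Φ k1 H k hk
  have p4 : (0 : ℝ) < 4 ^ k := by positivity
  have p2 : (0 : ℝ) < 2 ^ k := by positivity
  have p42 : (4 : ℝ) ^ k = 2 ^ k * 2 ^ k := by
    rw [← mul_pow]; norm_num
  -- pointwise bounds of the kernel
  have Enear : ∀ y z, |Ek φ Φ k y z| ≤ C * (1 / (1 + nm (z - y)) ^ 2) + C / 4 ^ k := by
    intro y z
    unfold Ek
    calc |Df φ (y - z) - Df (Φ k) y| ≤ |Df φ (y - z)| + |Df (Φ k) y| := abs_sub _ _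
      _ ≤ C / (1 + nm (y - z)) ^ 2 + C / 4 ^ k := add_le_add (H.hbd _) (H.dphi1 k hk y)
      _ = C * (1 / (1 + nm (z - y)) ^ 2) + C / 4 ^ k := by rw [nmS y z]; ring
  have Efar : ∀ y, y ∉ Bx b (k + 1) → ∀ z ∈ Bx b k,
      |Ek φ Φ k y z| ≤ C * 2 ^ k * (1 / (1 + nm y) ^ 3) := by
    intro y hy z hz
    have := H.far k hk z hz y hy
    unfold Ek
    calc _ ≤ C * 2 ^ k / (1 + nm y) ^ 3 := this
      _ = _ := by ring
  have farsum : ∀ s, ∑ y ∈ Bx b s \ Bx b (k + 1), C * 2 ^ k * (1 / (1 + nm y) ^ 3) ≤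
      C * D / 2 := by
    intro s
    rw [← Finset.mul_sum]
    calc C * 2 ^ k * ∑ y ∈ Bx b s \ Bx b (k + 1), 1 / (1 + nm y) ^ 3
        ≤ C * 2 ^ k * (D / 2 ^ (k + 1)) := by
          gcongr
          exact s4 (k + 1) s
      _ = C * D / 2 := by rw [pow_succ]; field_simp
  refine ⟨?_, ?_⟩
  · intro W w hw
    obtain ⟨hW, hw0, hw1⟩ := hw
    have sumw : ∑ z ∈ Bx b k, |w z| ≤ D * W := by
      calc ∑ z ∈ Bx b k, |w z| ≤ ∑ z ∈ Bx b k, W / 4 ^ k :=
            Finset.sum_le_sum (fun z _ => hw1 z)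
        _ = ((Bx b k).card : ℝ) * (W / 4 ^ k) := by rw [Finset.sum_const, nsmul_eq_mul]
        _ ≤ D * 4 ^ k * (W / 4 ^ k) := by gcongr; exact s1 k
        _ = D * W := by field_simp
    have Pabs : ∀ y, |∑ z ∈ Bx b k, w z * Ek φ Φ k y z| ≤
        ∑ z ∈ Bx b k, |w z| * |Ek φ Φ k y z| := by
      intro y
      calc _ ≤ ∑ z ∈ Bx b k, |w z * Ek φ Φ k y z| := Finset.abs_sum_le_sum_abs _ _
        _ = _ := by simp only [abs_mul]
    have Pfar : ∀ y, y ∉ Bx b (k + 1) → |∑ z ∈ Bx b k, w z * Ek φ Φ k y z| ≤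
        D * W * (C * 2 ^ k * (1 / (1 + nm y) ^ 3)) := by
      intro y hy
      have n0 := nm0 y
      calc _ ≤ ∑ z ∈ Bx b k, |w z| * |Ek φ Φ k y z| := Pabs y
        _ ≤ ∑ z ∈ Bx b k, |w z| * (C * 2 ^ k * (1 / (1 + nm y) ^ 3)) := by
            apply Finset.sum_le_sum
            intro z hz
            gcongr
            exact Efar y hy z hz
        _ = (∑ z ∈ Bx b k, |w z|) * (C * 2 ^ k * (1 / (1 + nm y) ^ 3)) := by
            rw [Finset.sum_mul]
        _ ≤ D * W * (C * 2 ^ k * (1 / (1 + nm y) ^ 3)) := by gcongr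
    refine ⟨?_, ?_, ?_, ?_⟩
    · intro s
      have h1 := split (Bx b s) (Bx b (k + 1)) (fun y => |∑ z ∈ Bx b k, w z * Ek φ Φ k y z|)
        (fun y => abs_nonneg _)
      have h2 : ∑ y ∈ Bx b s \ Bx b (k + 1), |∑ z ∈ Bx b k, w z * Ek φ Φ k y z| ≤
          D * W * (C * D / 2) := by
        calc _ ≤ ∑ y ∈ Bx b s \ Bx b (k + 1), D * W * (C * 2 ^ k * (1 / (1 + nm y) ^ 3)) := by
              apply Finset.sum_le_sum
              intro y hy
              exact Pfar y (Finset.mem_sdiff.1 hy).2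
          _ = D * W * ∑ y ∈ Bx b s \ Bx b (k + 1), C * 2 ^ k * (1 / (1 + nm y) ^ 3) := by
              rw [← Finset.mul_sum]
          _ ≤ _ := by gcongr; exact farsum s
      have h3 : ∑ y ∈ Bx b (k + 1), |∑ z ∈ Bx b k, w z * Df φ (y - z)| ≤
          C * (W / 4 ^ k) * (D * 4 ^ (k + 1)) :=
        formabs (Df φ) C hC0 H.form (Bx b k) (Bx b (k + 1)) (boxmono b k) w hw0 _ _
          (by positivity) (s1 (k + 1)) hw1
      have h4 : ∀ y, |∑ z ∈ Bx b k, w z * Ek φ Φ k y z| ≤
          |∑ z ∈ Bx b k, w z * Df φ (y - z)| + D * W * (C / 4 ^ k) := by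
        intro y
        have e : ∑ z ∈ Bx b k, w z * Ek φ Φ k y z =
            ∑ z ∈ Bx b k, w z * Df φ (y - z) - (∑ z ∈ Bx b k, w z) * Df (Φ k) y := by
          unfold Ek
          rw [Finset.sum_mul, ← Finset.sum_sub_distrib]
          apply Finset.sum_congr rfl
          intro z _
          ring
        rw [e]
        calc _ ≤ |∑ z ∈ Bx b k, w z * Df φ (y - z)| + |(∑ z ∈ Bx b k, w z) * Df (Φ k) y| :=
              abs_sub _ _
          _ ≤ _ := by
              rw [abs_mul]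
              gcongr
              · exact (Finset.abs_sum_le_sum_abs _ _).trans sumw
              · exact H.dphi1 k hk y
      have h5 : ∑ y ∈ Bx b (k + 1), |∑ z ∈ Bx b k, w z * Ek φ Φ k y z| ≤
          C * (W / 4 ^ k) * (D * 4 ^ (k + 1)) + D * 4 ^ (k + 1) * (D * W * (C / 4 ^ k)) := by
        calc _ ≤ ∑ y ∈ Bx b (k + 1), (|∑ z ∈ Bx b k, w z * Df φ (y - z)| +
              D * W * (C / 4 ^ k)) := Finset.sum_le_sum (fun y _ => h4 y)
          _ = ∑ y ∈ Bx b (k + 1), |∑ z ∈ Bx b k, w z * Df φ (y - z)| +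
              ((Bx b (k + 1)).card : ℝ) * (D * W * (C / 4 ^ k)) := by
              rw [Finset.sum_add_distrib, Finset.sum_const, nsmul_eq_mul]
          _ ≤ _ := by
              gcongr
              exact s1 (k + 1)
      have h6 : C * (W / 4 ^ k) * (D * 4 ^ (k + 1)) + D * 4 ^ (k + 1) * (D * W * (C / 4 ^ k)) =
          4 * C * W * D + 4 * C * W * D ^ 2 := by
        rw [pow_succ]; field_simp
      have h7 : C * W * D ≤ C * W * D ^ 2 := by gcongr
      have h8 : 0 ≤ C * W * D ^ 2 := by positivity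
      rw [h6] at h5
      calc _ ≤ _ := h1
        _ ≤ (4 * C * W * D + 4 * C * W * D ^ 2) + D * W * (C * D / 2) := add_le_add h5 h2
        _ ≤ 9 * C * D ^ 2 * W := by nlinarith
    · intro y
      have n0 := nm0 y
      unfold Gk
      split_ifs with hy
      · have h1 : ∑ z ∈ Bx b k, |w z| * |Ek φ Φ k y z| ≤
            W / 4 ^ k * (C * D * (k + 1) + D * C) := by
          calc _ ≤ ∑ z ∈ Bx b k, W / 4 ^ k *
                (C * (1 / (1 + nm (z - y)) ^ 2) + C / 4 ^ k) := by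
                apply Finset.sum_le_sum
                intro z _
                gcongr
                · exact hw1 z
                · exact Enear y z
            _ = W / 4 ^ k * (C * ∑ z ∈ Bx b k, 1 / (1 + nm (z - y)) ^ 2 +
                ((Bx b k).card : ℝ) * (C / 4 ^ k)) := by
                rw [← Finset.mul_sum, Finset.sum_add_distrib, ← Finset.mul_sum,
                  Finset.sum_const, nsmul_eq_mul]
            _ ≤ W / 4 ^ k * (C * (D * (k + 1)) + D * 4 ^ k * (C / 4 ^ k)) := by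
                gcongr
                · exact s2 k y
                · exact s1 k
            _ = _ := by
                congr 1
                field_simp
        have h2 : C * D * (k + 1) + D * C ≤ C * D * (2 * 2 ^ k) := by
          have h3 := kpow k
          have h4 : (1 : ℝ) ≤ 2 ^ k := one_le_pow₀ (by norm_num)
          have h5 : 0 ≤ C * D := by positivity
          nlinarith
        calc _ ≤ _ := Pabs y
          _ ≤ _ := h1
          _ ≤ W / 4 ^ k * (C * D * (2 * 2 ^ k)) := by gcongr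
          _ = 2 * C * D * W * (1 / 2 ^ k) := by
              rw [p42]; field_simp
          _ ≤ 9 * C * D ^ 2 * W * (1 / 2 ^ k) := by
              gcongr
              norm_num
      · calc _ ≤ _ := Pfar y hy
          _ ≤ D * W * (C * 2 ^ k * (1 / (1 + nm y) ^ 2)) := by
              gcongr
              · linarith
              · norm_num
          _ = 1 * C * D * W * (2 ^ k / (1 + nm y) ^ 2) := by ring
          _ ≤ 9 * C * D ^ 2 * W * (2 ^ k / (1 + nm y) ^ 2) := by
              gcongr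
              norm_num
    · intro x
      have h1 : ∀ z, |φ (x - z) - Φ k x| ≤ (1 + (φ (x - z) - Φ k x) ^ 2) / 2 := by
        intro z
        have := sq_nonneg (|φ (x - z) - Φ k x| - 1)
        have h2 : |φ (x - z) - Φ k x| ^ 2 = (φ (x - z) - Φ k x) ^ 2 := sq_abs _
        nlinarith
      have h3 : ∑ z ∈ Bx b k, |φ (x - z) - Φ k x| ≤ (D * 4 ^ k + C * 4 ^ k) / 2 := by
        calc _ ≤ ∑ z ∈ Bx b k, (1 + (φ (x - z) - Φ k x) ^ 2) / 2 :=
              Finset.sum_le_sum (fun z _ => h1 z)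
          _ = (((Bx b k).card : ℝ) + ∑ z ∈ Bx b k, (φ (x - z) - Φ k x) ^ 2) / 2 := by
              rw [← Finset.sum_div, Finset.sum_add_distrib, Finset.sum_const, nsmul_eq_mul,
                mul_one]
          _ ≤ _ := by
              gcongr
              · exact s1 k
              · exact H.psi2 k hk x
      have h4 : (D + C) / 2 ≤ C * D := by nlinarith [mul_nonneg (sub_nonneg.2 hD) (sub_nonneg.2 hC)]
      calc _ ≤ ∑ z ∈ Bx b k, W / 4 ^ k * |φ (x - z) - Φ k x| := by
            apply Finset.sum_le_sum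
            intro z _
            gcongr
            exact hw1 z
        _ = W / 4 ^ k * ∑ z ∈ Bx b k, |φ (x - z) - Φ k x| := by rw [Finset.mul_sum]
        _ ≤ W / 4 ^ k * ((D * 4 ^ k + C * 4 ^ k) / 2) := by gcongr
        _ = W * ((D + C) / 2) := by field_simp
        _ ≤ W * (C * D) := by gcongr
        _ ≤ W * (C * D ^ 2) := by gcongr
        _ ≤ 9 * C * D ^ 2 * W := by
            have h8 : 0 ≤ C * W * D ^ 2 := by positivity
            nlinarith
    · intro x e
      have n0 := nm0 x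
      unfold Gk
      split_ifs with hx
      · calc _ ≤ ∑ z ∈ Bx b k, W / 4 ^ k *
              |(φ (x + vec e - z) - Φ k (x + vec e)) - (φ (x - z) - Φ k x)| := by
              apply Finset.sum_le_sum
              intro z _
              gcongr
              exact hw1 z
          _ = W / 4 ^ k * ∑ z ∈ Bx b k,
              |(φ (x + vec e - z) - Φ k (x + vec e)) - (φ (x - z) - Φ k x)| := by
              rw [Finset.mul_sum]
          _ ≤ W / 4 ^ k * (C * 2 ^ k) := by gcongr; exact H.gradN k hk x e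
          _ = 1 * C * 1 * W * (1 / 2 ^ k) := by rw [p42]; field_simp
          _ ≤ 9 * C * D ^ 2 * W * (1 / 2 ^ k) := by
              gcongr
              · norm_num
              · linarith
      · calc _ ≤ ∑ z ∈ Bx b k, |w z| * (C * 2 ^ k / (1 + nm x) ^ 2) := by
              apply Finset.sum_le_sum
              intro z hz
              gcongr
              exact H.gradF k hk z hz x hx e
          _ = (∑ z ∈ Bx b k, |w z|) * (C * 2 ^ k / (1 + nm x) ^ 2) := by rw [Finset.sum_mul]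
          _ ≤ D * W * (C * 2 ^ k / (1 + nm x) ^ 2) := by gcongr
          _ = 1 * C * D * W * (2 ^ k / (1 + nm x) ^ 2) := by ring
          _ ≤ 9 * C * D ^ 2 * W * (2 ^ k / (1 + nm x) ^ 2) := by
              gcongr
              norm_num
  · intro z hz s
    have h1 := split (Bx b s) (Bx b (k + 1)) (fun y => |Ek φ Φ k y z|) (fun y => abs_nonneg _)
    have h2 : ∑ y ∈ Bx b s \ Bx b (k + 1), |Ek φ Φ k y z| ≤ C * D / 2 := by
      calc _ ≤ ∑ y ∈ Bx b s \ Bx b (k + 1), C * 2 ^ k * (1 / (1 + nm y) ^ 3) := by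
            apply Finset.sum_le_sum
            intro y hy
            exact Efar y (Finset.mem_sdiff.1 hy).2 z hz
        _ ≤ _ := farsum s
    have h3 : ∑ y ∈ Bx b (k + 1), |Ek φ Φ k y z| ≤ C * (D * ((k + 1 : ℕ) + 1)) + 4 * D * C := by
      calc _ ≤ ∑ y ∈ Bx b (k + 1), (C * (1 / (1 + nm (y - z)) ^ 2) + C / 4 ^ k) := by
            apply Finset.sum_le_sum
            intro y _
            have := Enear y z
            rwa [nmS z y] at this
        _ = C * ∑ y ∈ Bx b (k + 1), 1 / (1 + nm (y - z)) ^ 2 +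
            ((Bx b (k + 1)).card : ℝ) * (C / 4 ^ k) := by
            rw [Finset.sum_add_distrib, ← Finset.mul_sum, Finset.sum_const, nsmul_eq_mul]
        _ ≤ C * (D * ((k + 1 : ℕ) + 1)) + D * 4 ^ (k + 1) * (C / 4 ^ k) := by
            gcongr
            · exact s2 (k + 1) z
            · exact s1 (k + 1)
        _ = _ := by
            congr 1
            rw [pow_succ]; field_simp
    have k0 : (0 : ℝ) ≤ k := Nat.cast_nonneg k
    have h4 : (C * (D * ((k + 1 : ℕ) + 1)) + 4 * D * C) + C * D / 2 ≤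
        9 * (C * D) * (k + 1) := by
      push_cast
      have h5 : 0 ≤ C * D := by positivity
      nlinarith [mul_nonneg h5 k0]
    calc _ ≤ _ := h1
      _ ≤ (C * (D * ((k + 1 : ℕ) + 1)) + 4 * D * C) + C * D / 2 := add_le_add h3 h2
      _ ≤ 9 * (C * D) * (k + 1) := h4
      _ ≤ 9 * (C * D ^ 2) * (k + 1) := by gcongr
      _ = 9 * C * D ^ 2 * (k + 1) := by ring

end Pool.Agent.Helper42.MKV
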